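import Pool.Agent.TTC.StmtsC
import Pool.Agent.Helper62_TTC.CUB

set_option autoImplicit false

namespace Pool.Agent.TTC.H77

open Polynomial NumberField Pool.Agent.TTC.H62

theorem quin_monic {R : Type} [CommRing R] [Nontrivial R] (a : Fin 5 → R) : (quin a).Monic := by
  unfold quin
  monicity!

theorem quin_deg {R : Type} [CommRing R] [Nontrivial R] (a : Fin 5 → R) :
    (quin a).natDegree = 5 := by
  unfold quin
  compute_degree!

theorem cu2 : Cu2Stmt := by
  intro K _ _ v a m p hp hv hw
  set r : ℤ := er m a with hr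
  have h2 : v ((2 : ℤ) : K) = 1 := by
    refine v_int_eq K v p hp hv 2 fun h => hw ?_
    exact h.mul_right r
  have hvr : v (r : K) = 1 := by
    refine v_int_eq K v p hp hv r fun h => hw ?_
    exact h.mul_left 2
  have hr0 : (r : K) ≠ 0 := by
    intro h
    rw [h, map_zero] at hvr
    exact zero_ne_one hvr
  have hd1 : (derivative (quin a)).natDegree ≤ 4 := by
    refine (natDegree_derivative_le _).trans ?_
    rw [quin_deg]
  have hd2 : (derivative (derivative (quin a)) + C (m : ℤ) * quin a).natDegree ≤ 5 := by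
    refine (natDegree_add_le _ _).trans (max_le ?_ ?_)
    · refine (natDegree_derivative_le _).trans ?_
      omega
    · refine (natDegree_C_mul_le _ _).trans ?_
      rw [quin_deg]
  obtain ⟨P, Q, -, -, hPQ⟩ := exists_mul_add_mul_eq_C_resultant (m := 4) (n := 5)
    (derivative (quin a)) (derivative (derivative (quin a)) + C (m : ℤ) * quin a) hd1 hd2 (by simp)
  have hre : resultant (derivative (quin a))
      (derivative (derivative (quin a)) + C (m : ℤ) * quin a) 4 5 = r := rfl
  rw [hre] at hPQ
  have hK := congrArg (Polynomial.map (Int.castRingHom K)) hPQ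
  rw [Polynomial.map_add, Polynomial.map_mul, Polynomial.map_mul, Polynomial.map_C,
    Polynomial.map_add, Polynomial.map_mul, Polynomial.map_C] at hK
  have hcf : ∀ (f : ℤ[X]) (n : ℕ), v ((f.map (Int.castRingHom K)).coeff n) ≤ 1 := by
    intro f n
    rw [coeff_map]
    exact v_int_le K v _
  have hcr : ∀ (f : ℤ[X]) (n : ℕ), v ((C (r : K)⁻¹ * f.map (Int.castRingHom K)).coeff n) ≤ 1 := by
    intro f n
    rw [coeff_C_mul, map_mul, map_inv₀, hvr, inv_one, one_mul]
    exact hcf f n
  have hcm : ∀ n : ℕ, v ((C (r : K)⁻¹ * (C (m : ℤ) * Q).map (Int.castRingHom K)).coeff n) ≤ 1 :=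
    fun n => hcr _ n
  refine ⟨⟨?_, hcf _, C (r : K)⁻¹ * (C (m : ℤ) * Q).map (Int.castRingHom K),
    C (r : K)⁻¹ * P.map (Int.castRingHom K),
    C (r : K)⁻¹ * Q.map (Int.castRingHom K), fun n => ⟨hcm n, hcr P n, hcr Q n⟩, fun n => ?_⟩, ?_⟩
  · have : (2 : K) = ((2 : ℤ) : K) := by norm_num
    rw [this]
    exact h2
  · have h0 : (C (r : K)⁻¹ * (C (m : ℤ) * Q).map (Int.castRingHom K) *
        (quin a).map (Int.castRingHom K) + C (r : K)⁻¹ * P.map (Int.castRingHom K) *
        derivative ((quin a).map (Int.castRingHom K)) + C (r : K)⁻¹ * Q.map (Int.castRingHom K) *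
        derivative (derivative ((quin a).map (Int.castRingHom K))) - 1 : K[X]) = 0 := by
      rw [derivative_map, derivative_map, Polynomial.map_mul, Polynomial.map_C]
      have h3 : (C (r : K)⁻¹ * (C ((Int.castRingHom K) (m : ℤ)) * Q.map (Int.castRingHom K)) *
          (quin a).map (Int.castRingHom K) + C (r : K)⁻¹ * P.map (Int.castRingHom K) *
          (derivative (quin a)).map (Int.castRingHom K) +
          C (r : K)⁻¹ * Q.map (Int.castRingHom K) *
          (derivative (derivative (quin a))).map (Int.castRingHom K) - 1 : K[X])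
          = C (r : K)⁻¹ * ((derivative (quin a)).map (Int.castRingHom K) *
            P.map (Int.castRingHom K) +
            ((derivative (derivative (quin a))).map (Int.castRingHom K) +
              C ((Int.castRingHom K) (m : ℤ)) * (quin a).map (Int.castRingHom K)) *
            Q.map (Int.castRingHom K)) - 1 := by ring
      rw [h3, hK, eq_intCast, ← C_mul, inv_mul_cancel₀ hr0, C_1, sub_self]
    rw [h0, coeff_zero]
    have : v (0 : K) < 1 := by rw [map_zero]; exact zero_lt_one
    exact this
  · rintro ⟨m', hm⟩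
    have hdr : discr (quin a) = dr a := (res_eq (quin a) (quin_monic a) (quin_deg a)).symm
    rw [discr_map5 _ _ (quin_monic a) (quin_deg a), hdr, hm, eq_intCast, Int.cast_mul, map_mul,
      Int.cast_natCast]
    have : v (p : K) * v (m' : K) ≤ v (p : K) * 1 :=
      mul_le_mul_of_nonneg_left (v_int_le K v m') (apply_nonneg v _)
    linarith

end Pool.Agent.TTC.H77
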