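import Pool.Agent.TTC.Stmts

set_option autoImplicit false

namespace Pool.Agent.TTC.H77

open Finset

/-- `m ↦ m ^ (-θ)` as a monoid homomorphism -/
noncomputable def pw (θ : ℝ) (_hθ : 0 < θ) : ℕ →* ℝ where
  toFun m := (m : ℝ) ^ (-θ)
  map_one' := by simp
  map_mul' a b := by
    rw [Nat.cast_mul, Real.mul_rpow (Nat.cast_nonneg a) (Nat.cast_nonneg b)]

theorem pw_apply (θ : ℝ) (hθ : 0 < θ) (m : ℕ) : pw θ hθ m = (m : ℝ) ^ (-θ) := rfl

theorem pw_lt (θ : ℝ) (hθ : 0 < θ) (p : ℕ) (hp : 2 ≤ p) :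
    pw θ hθ p ≤ (2 : ℝ) ^ (-θ) := by
  rw [pw_apply]
  have h2 : (2 : ℝ) ≤ (p : ℝ) := by exact_mod_cast hp
  exact Real.rpow_le_rpow_of_nonpos (by norm_num) h2 (by linarith)

theorem two_lt (θ : ℝ) (hθ : 0 < θ) : (2 : ℝ) ^ (-θ) < 1 :=
  Real.rpow_lt_one_of_one_lt_of_neg (by norm_num) (by linarith)

theorem prod_bound (θ : ℝ) (hθ : 0 < θ) (n : ℕ) (hn : 1 ≤ n) :
    ∏ p ∈ n.primeFactors with p.Prime, (1 - pw θ hθ p)⁻¹ ≤
      (1 - (2 : ℝ) ^ (-θ))⁻¹ ^ (⌈(2 : ℝ) ^ (1 / θ)⌉₊) * (n : ℝ) ^ θ := by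
  set D : ℝ := (1 - (2 : ℝ) ^ (-θ))⁻¹ with hD
  set N : ℕ := ⌈(2 : ℝ) ^ (1 / θ)⌉₊ with hN
  have h2pos : 0 < (2 : ℝ) ^ (-θ) := Real.rpow_pos_of_pos (by norm_num) _
  have h2lt := two_lt θ hθ
  have hD1 : 1 ≤ D := by
    rw [hD]
    exact (one_le_inv₀ (by linarith)).mpr (by linarith)
  have hfil : n.primeFactors.filter (fun p => p.Prime) = n.primeFactors :=
    Finset.filter_true_of_mem fun p hp => Nat.prime_of_mem_primeFactors hp
  rw [hfil]
  have hstep : ∀ p ∈ n.primeFactors, (1 - pw θ hθ p)⁻¹ ≤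
      (if p < N then D else 1) * (p : ℝ) ^ θ := by
    intro p hp
    have hpp := Nat.prime_of_mem_primeFactors hp
    have hp2 : (2 : ℝ) ≤ (p : ℝ) := by exact_mod_cast hpp.two_le
    have hle := pw_lt θ hθ p hpp.two_le
    have hpθ : 1 ≤ (p : ℝ) ^ θ := Real.one_le_rpow (by linarith) hθ.le
    split_ifs with hlt
    · have h1 : (1 - pw θ hθ p)⁻¹ ≤ D := by
        rw [hD]
        exact inv_anti₀ (by linarith) (by linarith)
      nlinarith
    · have hNp : (2 : ℝ) ^ (1 / θ) ≤ (p : ℝ) := by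
        have := Nat.le_of_ceil_le (not_lt.mp hlt)
        exact this
      have h2p : (2 : ℝ) ≤ (p : ℝ) ^ θ := by
        have h3 := Real.rpow_le_rpow (by positivity) hNp hθ.le
        rw [← Real.rpow_mul (by norm_num), one_div, inv_mul_cancel₀ hθ.ne', Real.rpow_one] at h3
        exact h3
      have h4 : pw θ hθ p ≤ 1 / 2 := by
        rw [pw_apply, Real.rpow_neg (by linarith)]
        rw [one_div]
        exact inv_anti₀ (by norm_num) h2p
      have h5 : (1 - pw θ hθ p)⁻¹ ≤ 2 := by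
        rw [inv_le_comm₀ (by linarith) (by norm_num)]
        linarith
      linarith
  calc ∏ p ∈ n.primeFactors, (1 - pw θ hθ p)⁻¹
      ≤ ∏ p ∈ n.primeFactors, ((if p < N then D else 1) * (p : ℝ) ^ θ) := by
        refine Finset.prod_le_prod ?_ hstep
        intro p hp
        have hpp := Nat.prime_of_mem_primeFactors hp
        have hle := pw_lt θ hθ p hpp.two_le
        exact inv_nonneg.mpr (by linarith)
    _ = (∏ p ∈ n.primeFactors, (if p < N then D else 1)) * ∏ p ∈ n.primeFactors, (p : ℝ) ^ θ :=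
        Finset.prod_mul_distrib
    _ ≤ D ^ N * (n : ℝ) ^ θ := by
        refine mul_le_mul ?_ ?_ (by positivity) (by positivity)
        · rw [Finset.prod_ite, Finset.prod_const, Finset.prod_const_one, mul_one]
          refine pow_le_pow_right₀ hD1 ?_
          have : n.primeFactors.filter (fun p => p < N) ⊆ Finset.range N := by
            intro p hp
            rw [Finset.mem_filter] at hp
            exact Finset.mem_range.mpr hp.2
          simpa using Finset.card_le_card this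
        · rw [Real.finsetProd_rpow _ _ (fun p _ => Nat.cast_nonneg p)]
          refine Real.rpow_le_rpow (Finset.prod_nonneg fun p _ => Nat.cast_nonneg p) ?_ hθ.le
          have h6 := Nat.le_of_dvd hn (Nat.prod_primeFactors_dvd n)
          have h7 : ((∏ p ∈ n.primeFactors, p : ℕ) : ℝ) ≤ (n : ℝ) := Nat.cast_le.mpr h6
          rw [Nat.cast_prod] at h7
          exact h7

theorem rnk : RnkStmt := by
  classical
  intro A η hA hη
  set θ : ℝ := η / (2 * A) with hθd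
  have hθ : 0 < θ := by positivity
  set D : ℝ := (1 - (2 : ℝ) ^ (-θ))⁻¹ with hD
  have h2lt := two_lt θ hθ
  have hDpos : 0 < D := inv_pos.mpr (by linarith)
  set N : ℕ := ⌈(2 : ℝ) ^ (1 / θ)⌉₊ with hN
  refine ⟨D ^ N * A ^ (2 * θ), by positivity, ?_⟩
  intro H n hH hn hnY
  set Y : ℝ := A * (H : ℝ) ^ A with hY
  have hH1 : (1 : ℝ) ≤ (H : ℝ) := by exact_mod_cast hH
  have hn1 : (1 : ℝ) ≤ (n : ℝ) := by exact_mod_cast hn
  have hY1 : 1 ≤ Y := hn1.trans hnY
  have hfin : {m : ℕ | 1 ≤ m ∧ (m : ℝ) ≤ Y ∧ ∀ p : ℕ, p.Prime → p ∣ m → p ∣ n}.Finite := by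
    refine (Set.finite_Iic ⌊Y⌋₊).subset ?_
    intro m hm
    exact Nat.le_floor hm.2.1
  rw [Set.ncard_eq_toFinset_card _ hfin]
  set S := hfin.toFinset with hS
  have hmem : ∀ m ∈ S, 1 ≤ m ∧ (m : ℝ) ≤ Y ∧ ∀ p : ℕ, p.Prime → p ∣ m → p ∣ n := by
    intro m hm
    exact hfin.mem_toFinset.mp hm
  obtain ⟨hsum, hhas⟩ := EulerProduct.summable_and_hasSum_factoredNumbers_prod_filter_prime_geometric
    (f := pw θ hθ) (fun {p} hp => by
      rw [pw_apply, Real.norm_of_nonneg (by positivity), ← pw_apply θ hθ]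
      exact (pw_lt θ hθ p hp.two_le).trans_lt h2lt) n.primeFactors
  have hfac : ∀ m ∈ S, m ∈ Nat.factoredNumbers n.primeFactors := by
    intro m hm
    obtain ⟨h1, h2, h3⟩ := hmem m hm
    rw [Nat.mem_factoredNumbers']
    intro p hp hpm
    exact Nat.mem_primeFactors.mpr ⟨hp, h3 p hp hpm, by omega⟩
  have hle : ∑ m ∈ S, pw θ hθ m ≤ ∏ p ∈ n.primeFactors with p.Prime, (1 - pw θ hθ p)⁻¹ := by
    have h1 : ∑ m ∈ S, pw θ hθ m =
        ∑ m ∈ S.subtype (fun m => m ∈ Nat.factoredNumbers n.primeFactors), pw θ hθ (m : ℕ) := by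
      rw [Finset.sum_subtype_of_mem (fun m => pw θ hθ m) hfac]
    rw [h1]
    refine sum_le_hasSum _ ?_ hhas
    intro m _
    rw [pw_apply]
    positivity
  have hcard : (S.card : ℝ) ≤ Y ^ θ * ∑ m ∈ S, pw θ hθ m := by
    rw [Finset.mul_sum, Finset.card_eq_sum_ones, Nat.cast_sum]
    refine Finset.sum_le_sum fun m hm => ?_
    obtain ⟨h1, h2, _⟩ := hmem m hm
    have hm0 : (0 : ℝ) < (m : ℝ) := by exact_mod_cast h1
    rw [pw_apply, Real.rpow_neg hm0.le, ← div_eq_mul_inv, ← Real.div_rpow (by linarith) hm0.le,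
      Nat.cast_one]
    exact Real.one_le_rpow ((one_le_div hm0).mpr h2) hθ.le
  have hpb := prod_bound θ hθ n hn
  have hnθ : (n : ℝ) ^ θ ≤ Y ^ θ := Real.rpow_le_rpow (by linarith) hnY hθ.le
  have hYθ : 0 ≤ Y ^ θ := by positivity
  have hfinal : Y ^ θ * (D ^ N * Y ^ θ) = D ^ N * A ^ (2 * θ) * (H : ℝ) ^ η := by
    have e1 : Y ^ θ * (D ^ N * Y ^ θ) = D ^ N * Y ^ (2 * θ) := by
      rw [two_mul θ, Real.rpow_add (by linarith)]; ring
    have e2 : Y ^ (2 * θ) = A ^ (2 * θ) * (H : ℝ) ^ η := by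
      rw [hY, Real.mul_rpow hA.le (by positivity), ← Real.rpow_mul (by linarith)]
      have : A * (2 * θ) = η := by rw [hθd]; field_simp
      rw [this]
    rw [e1, e2]; ring
  calc (S.card : ℝ) ≤ Y ^ θ * ∑ m ∈ S, pw θ hθ m := hcard
    _ ≤ Y ^ θ * (D ^ N * (n : ℝ) ^ θ) := mul_le_mul_of_nonneg_left (hle.trans hpb) hYθ
    _ ≤ Y ^ θ * (D ^ N * Y ^ θ) := by gcongr
    _ = D ^ N * A ^ (2 * θ) * (H : ℝ) ^ η := hfinal

end Pool.Agent.TTC.H77
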